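import Mathlib
import Pool.Agent.N600.G3.Stm

/-!
# ENT2: size of the image and average size of the fibres
-/

set_option autoImplicit false

namespace Pool.Agent.N787.G3

open Pool.Agent.N600.G3

universe u

theorem t_ent2 : S_ENT2.{u} := by
  classical
  intro Ω Y _ _ X
  set n : ℝ := (Fintype.card Ω : ℝ) with hn
  have hn0 : 0 < n := by
    rw [hn]; exact_mod_cast Fintype.card_pos
  let fib : Y → Finset Ω := fun y => Finset.univ.filter fun w' => X w' = y
  have hfib : ∀ w, (Nat.card {w' : Ω // X w' = X w}) = (fib (X w)).card := by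
    intro w
    rw [Nat.card_eq_fintype_card, Fintype.card_subtype]
  have hfpos : ∀ w, 0 < ((fib (X w)).card : ℝ) := by
    intro w
    have h1 : w ∈ fib (X w) := Finset.mem_filter.2 ⟨Finset.mem_univ w, rfl⟩
    exact Nat.cast_pos.2 (Finset.card_pos.2 ⟨w, h1⟩)
  have hR : Nat.card (Set.range X) = (Finset.univ.image X).card := by
    rw [Nat.card_coe_set_eq, Set.ncard_eq_toFinset_card', Set.toFinset_range]
  have hRpos : 0 < (((Finset.univ.image X).card : ℕ) : ℝ) := by
    exact_mod_cast Finset.card_pos.2 (Finset.univ_nonempty.image X)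
  have hsum : ∑ w, 1 / ((fib (X w)).card : ℝ) = ((Finset.univ.image X).card : ℕ) := by
    rw [← Finset.sum_fiberwise_of_maps_to (t := Finset.univ.image X) (g := X)
      (fun w _ => Finset.mem_image_of_mem X (Finset.mem_univ w))]
    rw [Finset.card_eq_sum_ones, Nat.cast_sum]
    refine Finset.sum_congr rfl fun y hy => ?_
    obtain ⟨w, _, rfl⟩ := Finset.mem_image.1 hy
    have h1 : ∀ x ∈ Finset.univ.filter (fun x => X x = X w),
        1 / ((fib (X x)).card : ℝ) = 1 / ((fib (X w)).card : ℝ) := by
      intro x hx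
      rw [(Finset.mem_filter.1 hx).2]
    rw [Finset.sum_congr rfl h1, Finset.sum_const, nsmul_eq_mul]
    have h2 : (Finset.univ.filter (fun x => X x = X w)) = fib (X w) := rfl
    rw [h2, mul_one_div, div_self (hfpos w).ne', Nat.cast_one]
  simp only [hfib, hR]
  set R : ℝ := (((Finset.univ.image X).card : ℕ) : ℝ) with hRd
  have hle : ∀ w, Real.log n - Real.log R - Real.log ((fib (X w)).card : ℝ) ≤
      n / R * (1 / ((fib (X w)).card : ℝ)) - 1 := by
    intro w
    have h1 := Real.log_le_sub_one_of_pos (mul_pos (div_pos hn0 hRpos) (one_div_pos.2 (hfpos w)))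
    rw [Real.log_mul (div_pos hn0 hRpos).ne' (one_div_pos.2 (hfpos w)).ne',
      Real.log_div hn0.ne' hRpos.ne', one_div, Real.log_inv] at h1
    rw [one_div]
    linarith
  have h3 := Finset.sum_le_sum (s := Finset.univ) fun w _ => hle w
  rw [Finset.sum_sub_distrib, Finset.sum_sub_distrib, Finset.sum_sub_distrib, ← Finset.mul_sum,
    hsum, div_mul_cancel₀ _ hRpos.ne'] at h3
  simp only [Finset.sum_const, Finset.card_univ, nsmul_eq_mul, mul_one] at h3
  rw [← hn] at h3
  linarith

end Pool.Agent.N787.G3

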